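import Pool.Agent.BEZ.Stmts

set_option autoImplicit false

namespace Pool.Agent.BEZ.H60

open MvPolynomial Finset

theorem cc_eval {κ τ : Type} [Field κ] [Fintype τ] (η : τ → κ) (p : MvPolynomial τ (PowerSeries κ)) :
    PowerSeries.constantCoeff (eval (fun i => PowerSeries.C (η i)) p) =
      eval η (map (PowerSeries.constantCoeff (R := κ)) p) := by
  have h : (PowerSeries.constantCoeff (R := κ)).comp (eval (fun i => PowerSeries.C (η i))) =
      (eval η).comp (map (PowerSeries.constantCoeff (R := κ))) := by
    apply MvPolynomial.ringHom_ext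
    · intro r; simp
    · intro i; simp
  exact congrArg (fun f => f p) h

theorem bez (h1 : HenStmt) (h2 : FzrStmt) : BezStmt := by
  classical
  intro k ι τ _ _ _ _ g hR hN N h hrel
  obtain ⟨κ, _, _, w, η, hη, hz⟩ := h2 k ι τ g hR
  -- supports are not empty
  have hne : ∀ j, (g j).support.Nonempty := by
    intro j
    by_contra hcon
    rw [Finset.not_nonempty_iff_eq_empty] at hcon
    have h3 := hR {j}
    have h4 : {v : τ → ℚ | ∃ j' ∈ ({j} : Finset ι), ∃ e ∈ (g j').support,
        ∃ e' ∈ (g j').support, v = fun i => (e i : ℚ) - (e' i : ℚ)} = ∅ := by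
      ext v
      constructor
      · rintro ⟨j', hj', e, he, -⟩
        rw [Finset.mem_singleton] at hj'
        subst hj'
        rw [hcon] at he
        simp at he
      · intro hv; exact absurd hv (Set.notMem_empty v)
    rw [h4, Submodule.span_empty, finrank_bot] at h3
    simp at h3
  choose e0 he0 hmin using fun j => Finset.exists_min_image (g j).support (wt w) (hne j)
  set n : ι → (τ →₀ ℕ) → ℕ := fun j e => (wt w e - wt w (e0 j)).toNat with hn
  have hnn : ∀ j, ∀ e ∈ (g j).support, ((n j e : ℕ) : ℤ) = wt w e - wt w (e0 j) := by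
    intro j e he
    rw [hn]
    exact Int.toNat_of_nonneg (sub_nonneg.mpr (hmin j e he))
  set G : ι → MvPolynomial τ (PowerSeries κ) := fun j => ∑ e ∈ (g j).support,
    monomial e (PowerSeries.C (algebraMap k κ ((g j).coeff e)) * PowerSeries.X ^ (n j e)) with hG
  have key1 : ∀ j, map (PowerSeries.constantCoeff (R := κ)) (G j) =
      map (algebraMap k κ) (ini w (g j)) := by
    intro j
    rw [hG, ini, map_sum, map_sum, Finset.sum_filter]
    refine Finset.sum_congr rfl fun e he => ?_
    rw [map_monomial, map_monomial]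
    by_cases hm : ∀ e' ∈ (g j).support, wt w e ≤ wt w e'
    · rw [if_pos hm]
      have h0 : n j e = 0 := by
        have a1 := hm (e0 j) (he0 j)
        have a2 := hmin j e he
        have a3 := hnn j e he
        omega
      rw [h0]
      simp
    · rw [if_neg hm]
      have h0 : n j e ≠ 0 := by
        intro h0
        apply hm
        intro e' he'
        have a2 := hmin j e' he'
        have a3 := hnn j e he
        rw [h0] at a3
        push_cast at a3
        omega
      simp [h0]
  have hae : ∀ q : MvPolynomial τ k, aeval η q = eval η (map (algebraMap k κ) q) := by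
    intro q
    rw [aeval_def, eval_map]
  obtain ⟨U, hU, hU0⟩ := h1 κ ι τ G η (by
      intro j
      rw [cc_eval, key1, ← hae, hz]) (by
      intro l hl
      apply hN κ w η l hη hz
      intro i
      rw [← hl i]
      refine Finset.sum_congr rfl fun j _ => ?_
      rw [cc_eval, hae, ← pderiv_map, ← pderiv_map, key1])
  -- Laurent series
  set T : τ → LaurentSeries κ := fun i =>
    HahnSeries.single (w i) (1 : κ) * HahnSeries.ofPowerSeries ℤ κ (U i) with hT
  set ρ : k →+* LaurentSeries κ :=
    (HahnSeries.ofPowerSeries ℤ κ).comp ((PowerSeries.C (R := κ)).comp (algebraMap k κ)) with hρ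
  have hsg : ∀ e : τ →₀ ℕ, ∏ i, (HahnSeries.single (w i) (1 : κ) : LaurentSeries κ) ^ (e i) =
      HahnSeries.single (wt w e) 1 := by
    intro e
    have h5 : ∀ s : Finset τ, ∏ i ∈ s, (HahnSeries.single (w i) (1 : κ) : LaurentSeries κ) ^ (e i) =
        HahnSeries.single (∑ i ∈ s, w i * (e i : ℤ)) 1 := by
      intro s
      induction s using Finset.induction_on with
      | empty => simp
      | insert a s ha ih =>
        rw [Finset.prod_insert ha, ih, Finset.sum_insert ha, HahnSeries.single_pow, one_pow,
          HahnSeries.single_mul_single, one_mul, nsmul_eq_mul, mul_comm (w a)]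
    exact h5 univ
  have hT0 : ∀ i, T i ≠ 0 := by
    intro i
    apply mul_ne_zero
    · exact HahnSeries.single_ne_zero one_ne_zero
    · intro h6
      rw [map_eq_zero_iff _ HahnSeries.ofPowerSeries_injective] at h6
      apply hη i
      rw [← hU i, h6, map_zero]
  have hg0 : ∀ j, eval₂Hom ρ T (g j) = 0 := by
    intro j
    have e1 : eval₂Hom ρ T (g j) = HahnSeries.single (wt w (e0 j)) (1 : κ) *
        HahnSeries.ofPowerSeries ℤ κ (eval U (G j)) := by
      rw [coe_eval₂Hom, eval₂_eq', hG, map_sum, map_sum, Finset.mul_sum]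
      refine Finset.sum_congr rfl fun e he => ?_
      rw [eval_monomial, Finsupp.prod_fintype _ _ (fun i => pow_zero _), map_mul, map_mul, map_prod,
        HahnSeries.ofPowerSeries_X_pow]
      have e2 : ∏ i, T i ^ (e i) = HahnSeries.single (wt w e) (1 : κ) *
          ∏ i, HahnSeries.ofPowerSeries ℤ κ (U i ^ (e i)) := by
        rw [← hsg e, ← Finset.prod_mul_distrib]
        refine Finset.prod_congr rfl fun i _ => ?_
        rw [hT, mul_pow, map_pow]
      have e3 : (HahnSeries.single (wt w e) (1 : κ) : LaurentSeries κ) =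
          HahnSeries.single (wt w (e0 j)) (1 : κ) * HahnSeries.single ((n j e : ℕ) : ℤ) 1 := by
        rw [HahnSeries.single_mul_single, one_mul, hnn j e he]
        congr 1
        ring_nf
      rw [e2, e3]
      rw [hρ]
      simp only [RingHom.comp_apply]
      ring
    rw [e1, hU0, map_zero, mul_zero]
  have hfin := congrArg (eval₂Hom ρ T) hrel
  rw [map_pow, map_prod, map_sum] at hfin
  have hz1 : ∑ j, eval₂Hom ρ T (g j * h j) = 0 := by
    refine Finset.sum_eq_zero fun j _ => ?_
    rw [map_mul, hg0, zero_mul]
  rw [hz1] at hfin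
  have h8 : ∏ i, eval₂Hom ρ T (X i) ≠ 0 := by
    rw [Finset.prod_ne_zero_iff]
    intro i _
    rw [coe_eval₂Hom, eval₂_X]
    exact hT0 i
  exact pow_ne_zero N h8 hfin

end Pool.Agent.BEZ.H60
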